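import Pool.Agent.K7.H45.GFD.Shift

/-! Density of the homomorphism order of finite digraphs above the edge. -/

namespace Pool.Agent.K7.H45.GFD

/-- homomorphisms of digraphs given by their sets of arcs -/
def Hom {α β : Type} (E : Set (α × α)) (F : Set (β × β)) : Prop :=
  ∃ h : α → β, ∀ a b, (a, b) ∈ E → (h a, h b) ∈ F

theorem Hom.trans {α β γ : Type} {E : Set (α × α)} {F : Set (β × β)} {K : Set (γ × γ)}
    (h1 : Hom E F) (h2 : Hom F K) : Hom E K := by
  obtain ⟨f, hf⟩ := h1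
  obtain ⟨g, hg⟩ := h2
  exact ⟨g ∘ f, fun a b h => hg _ _ (hf _ _ h)⟩

/-- every finite digraph over a countable type is homomorphically equivalent to a finite one
over the natural numbers -/
theorem encode {X : Type} [Countable X] [Nonempty X] (E : Set (X × X)) (hE : E.Finite) :
    ∃ E' : Set (ℕ × ℕ), E'.Finite ∧ Hom E E' ∧ Hom E' E := by
  obtain ⟨e, he⟩ := exists_injective_nat X
  refine ⟨(fun p : X × X => (e p.1, e p.2)) '' E, hE.image _, ⟨e, fun a b h => ⟨(a, b), h, rfl⟩⟩, ?_⟩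
  refine ⟨Function.invFun e, ?_⟩
  rintro _ _ ⟨⟨a, b⟩, h, h'⟩
  simp only [Prod.mk.injEq] at h'
  obtain ⟨rfl, rfl⟩ := h'
  rw [Function.leftInverse_invFun he, Function.leftInverse_invFun he]
  exact h

/-- the vertices of a set of arcs -/
def verts (E : Set (ℕ × ℕ)) : Set ℕ := Prod.fst '' E ∪ Prod.snd '' E

theorem verts_finite {E : Set (ℕ × ℕ)} (hE : E.Finite) : (verts E).Finite :=
  (hE.image _).union (hE.image _)

theorem fst_mem {E : Set (ℕ × ℕ)} {a b : ℕ} (h : (a, b) ∈ E) : a ∈ verts E :=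
  Or.inl ⟨_, h, rfl⟩

theorem snd_mem {E : Set (ℕ × ℕ)} {a b : ℕ} (h : (a, b) ∈ E) : b ∈ verts E :=
  Or.inr ⟨_, h, rfl⟩

/-- the homomorphism order of finite digraphs is dense above the undirected edge -/
theorem dense {E1 E2 : Set (ℕ × ℕ)} (h1 : E1.Finite) (h2 : E2.Finite) (h12 : Hom E1 E2)
    (h21 : ¬ Hom E2 E1) {p q : ℕ} (hpq : (p, q) ∈ E1) (hqp : (q, p) ∈ E1) :
    ∃ E3 : Set (ℕ × ℕ), E3.Finite ∧ Hom E1 E3 ∧ Hom E3 E2 ∧ ¬ Hom E3 E1 ∧ ¬ Hom E2 E3 := by
  classical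
  have hf1 : Finite (verts E1) := verts_finite h1
  have hf2 : Finite (verts E2) := verts_finite h2
  have : Fintype (verts E2) := Fintype.ofFinite _
  have hp1 : p ∈ verts E1 := fst_mem hpq
  obtain ⟨V, hV, H, hHs, hHc, hHl⟩ := exists_graph (verts E2 → verts E1) (Fintype.card (verts E2))
  have hVne : Nonempty V := by
    by_contra hne
    obtain ⟨a, _⟩ := hHc (fun _ => fun _ => ⟨p, hp1⟩)
    exact hne ⟨a⟩
  let E : Set ((ℕ ⊕ (ℕ × V)) × (ℕ ⊕ (ℕ × V))) :=
    (fun p : ℕ × ℕ => (Sum.inl p.1, Sum.inl p.2)) '' E1 ∪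
      {e | ∃ a b x y, (a, b) ∈ E2 ∧ H x y ∧ e = (Sum.inr (a, x), Sum.inr (b, y))}
  have hE : E.Finite := by
    refine (h1.image _).union ?_
    have h4 : (E2 ×ˢ (Set.univ : Set (V × V))).Finite := h2.prod Set.finite_univ
    refine (h4.image (fun e : (ℕ × ℕ) × (V × V) =>
      ((Sum.inr (e.1.1, e.2.1), Sum.inr (e.1.2, e.2.2)) :
        (ℕ ⊕ (ℕ × V)) × (ℕ ⊕ (ℕ × V))))).subset ?_
    rintro _ ⟨a, b, x, y, hab, -, rfl⟩
    exact ⟨((a, b), (x, y)), ⟨hab, Set.mem_univ _⟩, rfl⟩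
  have hcount : Countable V := inferInstance
  obtain ⟨E3, h3, h4, h5⟩ := encode E hE
  refine ⟨E3, h3, ?_, ?_, ?_, ?_⟩
  · exact Hom.trans ⟨Sum.inl, fun a b h => Or.inl ⟨(a, b), h, rfl⟩⟩ h4
  · refine Hom.trans h5 ?_
    obtain ⟨g, hg⟩ := h12
    refine ⟨Sum.elim g Prod.fst, ?_⟩
    rintro a b (⟨⟨p, q⟩, hp, h⟩ | ⟨a', b', x, y, hab, -, h⟩)
    · simp only [Prod.mk.injEq] at h
      obtain ⟨rfl, rfl⟩ := h
      exact hg _ _ hp
    · simp only [Prod.mk.injEq] at h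
      obtain ⟨rfl, rfl⟩ := h
      exact hab
  · intro h
    obtain ⟨g, hg⟩ := h4.trans h
    -- colour the vertices of `H` by maps
    let c : V → (verts E2 → verts E1) := fun x a =>
      if h : g (Sum.inr (a.1, x)) ∈ verts E1 then ⟨_, h⟩ else ⟨p, hp1⟩
    obtain ⟨x, y, hxy, hc⟩ := hHc c
    apply h21
    refine ⟨fun a => if h : a ∈ verts E2 then (c x ⟨a, h⟩).1 else p, ?_⟩
    intro a b hab
    have ha := fst_mem hab
    have hb := snd_mem hab
    beta_reduce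
    rw [dif_pos ha, dif_pos hb]
    have h6 := hg _ _ (Or.inr ⟨a, b, x, y, hab, hxy, rfl⟩ :
      ((Sum.inr (a, x) : ℕ ⊕ (ℕ × V)), Sum.inr (b, y)) ∈ E)
    have h7 : (c x ⟨a, ha⟩).1 = g (Sum.inr (a, x)) := by
      simp only [c]
      rw [dif_pos (fst_mem h6)]
    have h8 : (c x ⟨b, hb⟩).1 = g (Sum.inr (b, y)) := by
      rw [hc]
      simp only [c]
      rw [dif_pos (snd_mem h6)]
    rw [h7, h8]
    exact h6
  · intro h
    obtain ⟨g, hg⟩ := h.trans h5
    -- the vertices mapped into the second part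
    let f : verts E2 → V := fun a => Sum.elim (fun _ => Classical.choice hVne) Prod.snd (g a.1)
    obtain ⟨c, hc⟩ := hHl (verts E2) (le_refl _) f
    apply h21
    refine ⟨fun a => Sum.elim id (fun _ => if h : a ∈ verts E2 then
      (if c ⟨a, h⟩ then p else q) else p) (g a), ?_⟩
    intro a b hab
    have ha := fst_mem hab
    have hb := snd_mem hab
    rcases hg _ _ hab with ⟨⟨a', b'⟩, hp', h'⟩ | ⟨a', b', x, y, -, hxy, h'⟩
    · simp only [Prod.mk.injEq] at h'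
      obtain ⟨h6, h7⟩ := h'
      beta_reduce
      rw [← h6, ← h7]
      exact hp'
    · simp only [Prod.mk.injEq] at h'
      obtain ⟨h6, h7⟩ := h'
      have h8 : f ⟨a, ha⟩ = x := by simp [f, h6]
      have h9 : f ⟨b, hb⟩ = y := by simp [f, h7]
      have h10 := hc ⟨a, ha⟩ ⟨b, hb⟩ (by rw [h8, h9]; exact hxy)
      beta_reduce
      rw [h6, h7]
      simp only [Sum.elim_inr, dif_pos ha, dif_pos hb]
      cases hca : c ⟨a, ha⟩ <;> cases hcb : c ⟨b, hb⟩
      · rw [hca, hcb] at h10; exact absurd rfl h10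
      · simpa using hqp
      · simpa using hpq
      · rw [hca, hcb] at h10; exact absurd rfl h10

end Pool.Agent.K7.H45.GFD
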