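import Mathlib

/-! Shift graphs: graphs of large chromatic number whose small subgraphs are bipartite. -/

namespace Pool.Agent.K7.H45.GFD

/-- arcs of the shift graph on the words of length `k + 1` -/
def Arc {k m : ℕ} (a b : Fin (k + 1) → Fin m) : Prop :=
  ∃ z : Fin (k + 2) → Fin m, StrictMono z ∧ (∀ i, a i = z i.castSucc) ∧ ∀ i, b i = z i.succ

theorem arc_noncol (k : ℕ) : ∀ (C : Type) [Finite C], ∃ m : ℕ,
    ∀ c : (Fin (k + 1) → Fin m) → C, ∃ a b, Arc a b ∧ c a = c b := by
  induction k with
  | zero =>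
    intro C _
    have : Fintype C := Fintype.ofFinite C
    refine ⟨Fintype.card C + 1, fun c => ?_⟩
    obtain ⟨x, y, hxy, h⟩ := Fintype.exists_ne_map_eq_of_card_lt
      (fun x : Fin (Fintype.card C + 1) => c (fun _ => x)) (by simp)
    have key : ∀ x y : Fin (Fintype.card C + 1), x < y → c (fun _ => x) = c (fun _ => y) →
        ∃ a b, Arc a b ∧ c a = c b := by
      intro x y hxy h
      refine ⟨_, _, ⟨![x, y], ?_, ?_, ?_⟩, h⟩
      · intro i j hij
        fin_cases i <;> fin_cases j <;> simp_all
      · intro i; fin_cases i; rfl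
      · intro i; fin_cases i; rfl
    rcases lt_or_gt_of_ne hxy with h1 | h1
    · exact key x y h1 h
    · exact key y x h1 h.symm
  | succ k ih =>
    intro C _
    obtain ⟨m, hm⟩ := ih (Set C)
    refine ⟨m, fun c => ?_⟩
    obtain ⟨a, b, ⟨z, hz, hza, hzb⟩, hab⟩ := hm (fun v => {x | ∃ z : Fin (k + 2) → Fin m,
      StrictMono z ∧ (∀ i, v i = z i.castSucc) ∧ x = c z})
    have h1 : c z ∈ {x | ∃ z : Fin (k + 2) → Fin m,
      StrictMono z ∧ (∀ i, b i = z i.castSucc) ∧ x = c z} := by
      have : c z ∈ {x | ∃ z : Fin (k + 2) → Fin m,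
        StrictMono z ∧ (∀ i, a i = z i.castSucc) ∧ x = c z} := ⟨z, hz, hza, rfl⟩
      rw [← hab]
      exact this
    obtain ⟨y, hy, hyb, hc⟩ := h1
    refine ⟨z, y, ⟨Fin.snoc z (y (Fin.last _)), ?_, ?_, ?_⟩, hc⟩
    · rw [Fin.strictMono_iff_lt_succ]
      intro i
      rw [Fin.snoc_castSucc]
      refine Fin.lastCases ?_ (fun j => ?_) i
      · rw [Fin.succ_last, Fin.snoc_last]
        have h2 := hzb (Fin.last _)
        have h3 := hyb (Fin.last _)
        rw [Fin.succ_last] at h2
        rw [← h2, h3]
        exact hy (Fin.castSucc_lt_last _)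
      · rw [Fin.succ_castSucc, Fin.snoc_castSucc]
        exact hz (Fin.castSucc_lt_succ)
    · intro i; rw [Fin.snoc_castSucc]
    · intro i
      refine Fin.lastCases ?_ (fun j => ?_) i
      · rw [Fin.succ_last, Fin.snoc_last]
      · rw [Fin.succ_castSucc, Fin.snoc_castSucc, ← hyb, hzb]

/-- a walk of `t` steps with `s` forward steps -/
theorem track {k m : ℕ} {W : Type} (f : W → (Fin (k + 1) → Fin m)) (G : SimpleGraph W)
    (hG : ∀ x y, G.Adj x y → Arc (f x) (f y) ∨ Arc (f y) (f x)) {x y : W} (p : G.Walk x y) :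
    ∃ s ≤ p.length, ∀ i j : Fin (k + 1), p.length ≤ i.1 → i.1 + p.length ≤ k →
      j.1 + p.length = i.1 + 2 * s → f x j = f y i := by
  induction p with
  | nil =>
    refine ⟨0, le_refl _, fun i j _ _ h => ?_⟩
    have : j = i := by apply Fin.ext; simpa using h
    rw [this]
  | @cons x z y hadj p ih =>
    obtain ⟨s, hs, h⟩ := ih
    rw [SimpleGraph.Walk.length_cons]
    rcases hG _ _ hadj with ⟨w, hw, h1, h2⟩ | ⟨w, hw, h1, h2⟩
    · -- forward: f x = init, f z = tail;  f z j = f x (j+1)
      refine ⟨s + 1, by omega, fun i j hi hik hj => ?_⟩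
      have hj0 : 0 < j.1 := by omega
      have h3 := h i ⟨j.1 - 1, by omega⟩ (by omega) (by omega) (by simp only; omega)
      rw [← h3, h2, h1]
      congr 1
      apply Fin.ext
      simp only [Fin.val_castSucc, Fin.val_succ]
      omega
    · -- backward: f z = init, f x = tail; f x j = f z (j+1)
      refine ⟨s, by omega, fun i j hi hik hj => ?_⟩
      have hj0 : j.1 + 1 < k + 1 := by omega
      have h3 := h i ⟨j.1 + 1, hj0⟩ (by omega) (by omega) (by simp only; omega)
      rw [← h3, h2, h1]
      congr 1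

theorem two_col {W : Type} [Fintype W] (G : SimpleGraph W)
    (h : ∀ x (p : G.Walk x x), p.length ≤ 2 * Fintype.card W → Even p.length) :
    ∃ c : W → Bool, ∀ x y, G.Adj x y → c x ≠ c y := by
  classical
  have hr : ∀ x, G.Reachable (G.connectedComponentMk x).out x := by
    intro x
    rw [← SimpleGraph.ConnectedComponent.eq]
    exact Quot.out_eq _
  choose p hp using fun x => (hr x).exists_isPath
  refine ⟨fun x => decide (Even (p x).length), ?_⟩
  intro x y hxy hc
  have hxy' : G.connectedComponentMk x = G.connectedComponentMk y :=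
    SimpleGraph.ConnectedComponent.eq.2 hxy.reachable
  have hout : (G.connectedComponentMk y).out = (G.connectedComponentMk x).out := by rw [hxy']
  have h1 : (p x).length < Fintype.card W := (hp x).length_lt
  have h2 : (p y).length < Fintype.card W := (hp y).length_lt
  have h3 := h _ (((p x).concat hxy).append ((p y).copy hout rfl).reverse) (by
    rw [SimpleGraph.Walk.length_append, SimpleGraph.Walk.length_concat,
      SimpleGraph.Walk.length_reverse, SimpleGraph.Walk.length_copy]
    omega)
  rw [SimpleGraph.Walk.length_append, SimpleGraph.Walk.length_concat,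
      SimpleGraph.Walk.length_reverse, SimpleGraph.Walk.length_copy] at h3
  have h4 : Even (p x).length ↔ Even (p y).length := by
    simpa using hc
  rcases Nat.even_or_odd (p x).length with h5 | h5
  · have h6 := h4.1 h5
    rw [Nat.even_iff] at h3 h5 h6
    omega
  · have h6 : ¬ Even (p y).length := fun h6 => (Nat.not_even_iff_odd.2 h5) (h4.2 h6)
    rw [Nat.not_even_iff_odd] at h6
    rw [Nat.even_iff] at h3
    rw [Nat.odd_iff] at h5 h6
    omega

theorem local_bip {k m : ℕ} {W : Type} [Fintype W] (hk : 4 * Fintype.card W ≤ k)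
    (f : W → (Fin (k + 1) → Fin m)) :
    ∃ c : W → Bool, ∀ x y, Arc (f x) (f y) ∨ Arc (f y) (f x) → c x ≠ c y := by
  have hirr : ∀ a : Fin (k + 1) → Fin m, ¬ Arc a a := by
    rintro a ⟨z, hz, h1, h2⟩
    have h3 := h1 0
    have h4 := h2 0
    rw [h3] at h4
    exact absurd (hz.injective h4) (by
      intro h
      have := congrArg Fin.val h
      simp at this)
  let G : SimpleGraph W :=
    { Adj := fun x y => Arc (f x) (f y) ∨ Arc (f y) (f x)
      symm := ⟨fun x y h => h.symm⟩
      loopless := ⟨fun x h => by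
        rcases h with h | h <;> exact hirr _ h⟩ }
  obtain ⟨c, hc⟩ := two_col G (by
    intro x p hp
    obtain ⟨s, hs, h⟩ := track f G (fun _ _ h => h) p
    by_cases hp0 : 2 * s = p.length
    · exact ⟨s, by omega⟩
    exfalso
    by_cases hadj : ∃ y, G.Adj x y
    · obtain ⟨y, hy⟩ := hadj
      have hmono : StrictMono (f x) := by
        rcases hy with ⟨z, hz, h1, h2⟩ | ⟨z, hz, h1, h2⟩
        · intro i j hij
          rw [h1, h1]
          exact hz (by simpa using hij)
        · intro i j hij
          rw [h2, h2]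
          exact hz (by simpa using hij)
      have h1 := h ⟨p.length, by omega⟩ ⟨2 * s, by omega⟩ (le_refl _) (by simp only; omega)
        (by simp only; omega)
      have h2 := hmono.injective h1
      exact hp0 (by simpa using congrArg Fin.val h2)
    · cases p with
      | nil => simp at hs; exact hp0 (by simp [hs])
      | cons hadj' _ => exact hadj ⟨_, hadj'⟩)
  exact ⟨c, fun x y h => hc x y h⟩

/-- a finite graph which is not colourable by `C`, every small part of which is bipartite -/
theorem exists_graph (C : Type) [Finite C] (n : ℕ) : ∃ (V : Type) (_ : Finite V)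
    (H : V → V → Prop), (∀ a b, H a b → H b a) ∧ (∀ c : V → C, ∃ a b, H a b ∧ c a = c b) ∧
    ∀ (W : Type) [Fintype W], Fintype.card W ≤ n → ∀ f : W → V,
      ∃ c : W → Bool, ∀ x y, H (f x) (f y) → c x ≠ c y := by
  obtain ⟨m, hm⟩ := arc_noncol (4 * n) C
  refine ⟨Fin (4 * n + 1) → Fin m, inferInstance, fun a b => Arc a b ∨ Arc b a, ?_, ?_, ?_⟩
  · intro a b h; exact h.symm
  · intro c
    obtain ⟨a, b, h, h'⟩ := hm c
    exact ⟨a, b, Or.inl h, h'⟩
  · intro W _ hW f
    exact local_bip (by omega) f

end Pool.Agent.K7.H45.GFD
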